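import Mathlib

/-!
# MP_b9b46b_al : conditions (a) and (b) are equivalent for every ring in the class `𝒞`

The class `𝒞` consists of the reduced f-rings with bounded inversion.  We show that for every
ring `A` of the class, the local-global property (a) is equivalent to the quadratic unit
substitution property (b).  So the answer to the posed question is: all rings of the class.
-/

namespace Pool.Agent.Results.MP_b9b46b_al.LGIffQuadratic

universe u

/-- `A`, with its given ring structure and lattice order, is an f-ring: it is a subdirect product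
of totally ordered rings, that is, there is a family of surjective ring homomorphisms `φ i` onto
totally ordered rings, which preserve the lattice operations and jointly separate points. -/
def IsFRing (A : Type u) [CommRing A] [Lattice A] : Prop :=
  ∃ (ι : Type u) (R : ι → Type u) (_ : ∀ i, CommRing (R i)) (_ : ∀ i, LinearOrder (R i))
    (_ : ∀ i, IsOrderedRing (R i)) (φ : ∀ i, A →+* R i),
    (∀ i, Function.Surjective (φ i)) ∧
    (∀ i a b, φ i (a ⊔ b) = φ i a ⊔ φ i b) ∧
    (∀ i a b, φ i (a ⊓ b) = φ i a ⊓ φ i b) ∧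
    (∀ a, (∀ i, φ i a = 0) → a = 0)

/-- The class `𝒞`: f-rings without nonzero nilpotent elements and with bounded inversion. -/
def InClassC (A : Type u) [CommRing A] [Lattice A] : Prop :=
  IsFRing A ∧ (∀ a : A, IsNilpotent a → a = 0) ∧ (∀ x : A, 1 < x → IsUnit x)

/-- Condition (a): the local-global property. -/
def LGProperty (A : Type u) [CommRing A] : Prop :=
  ∀ n : ℕ, 1 ≤ n → ∀ f : MvPolynomial (Fin n) A,
    (∀ (M : Ideal A) [M.IsMaximal], ∃ x : Fin n → Localization.AtPrime M,
      IsUnit (MvPolynomial.aeval x f)) →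
    ∃ y : Fin n → A, IsUnit (MvPolynomial.eval y f)

/-- Condition (b): for all relatively prime `a, b ≥ 0` there is `u` with `a - b u ^ 2` a unit. -/
def QuadraticUnitSubstitution (A : Type u) [CommRing A] [Lattice A] : Prop :=
  ∀ a b : A, 0 ≤ a → 0 ≤ b → IsCoprime a b → ∃ u : A, IsUnit (a - b * u ^ 2)

section Basics

variable {A : Type u} [CommRing A] [Lattice A]

/-- The order facts on an f-ring that we use. -/
structure Facts (A : Type u) [CommRing A] [Lattice A] : Prop where
  add_le : ∀ a b c : A, a ≤ b → a + c ≤ b + c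
  mul_nonneg : ∀ a b : A, 0 ≤ a → 0 ≤ b → 0 ≤ a * b
  sq_nonneg : ∀ a : A, 0 ≤ a ^ 2
  sup_zero_mul : ∀ a : A, (a ⊔ 0) * (-a ⊔ 0) = 0
  sup_zero_sub : ∀ a : A, (a ⊔ 0) - (-a ⊔ 0) = a

theorem facts_of_isFRing (h : IsFRing A) : Facts A := by
  obtain ⟨ι, R, i1, i2, i3, φ, -, hsup, hinf, hinj⟩ := h
  have hle : ∀ a b : A, a ≤ b ↔ ∀ i, φ i a ≤ φ i b := by
    intro a b
    constructor
    · intro hab i
      have : φ i (a ⊔ b) = φ i b := by rw [sup_eq_right.mpr hab]
      rw [hsup] at this
      exact sup_eq_right.mp this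
    · intro hab
      have : a ⊔ b - b = 0 := by
        apply hinj
        intro i
        rw [map_sub, hsup, sup_eq_right.mpr (hab i), sub_self]
      exact sup_eq_right.mp (sub_eq_zero.mp this)
  have heq : ∀ a b : A, (∀ i, φ i a = φ i b) → a = b := by
    intro a b hab
    have := hinj (a - b) (fun i => by rw [map_sub, hab i, sub_self])
    exact sub_eq_zero.mp this
  refine ⟨?_, ?_, ?_, ?_, ?_⟩
  · intro a b c hab
    rw [hle] at hab ⊢
    intro i
    rw [map_add, map_add]
    exact add_le_add_left (hab i) _
  · intro a b ha hb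
    rw [hle] at ha hb ⊢
    intro i
    have h1 := ha i
    have h2 := hb i
    rw [map_zero] at h1 h2 ⊢
    rw [map_mul]
    exact _root_.mul_nonneg h1 h2
  · intro a
    rw [hle]
    intro i
    rw [map_zero, map_pow]
    exact _root_.sq_nonneg _
  · intro a
    apply heq
    intro i
    rw [map_mul, hsup, hsup, map_neg, map_zero]
    rcases le_total (φ i a) 0 with h | h
    · rw [sup_eq_right.mpr h, zero_mul]
    · rw [sup_eq_right.mpr (neg_nonpos.mpr h), mul_zero]
  · intro a
    apply heq
    intro i
    rw [map_sub, hsup, hsup, map_neg, map_zero]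
    rcases le_total (φ i a) 0 with h | h
    · rw [sup_eq_right.mpr h, sup_eq_left.mpr (neg_nonneg.mpr h)]
      ring
    · rw [sup_eq_left.mpr h, sup_eq_right.mpr (neg_nonpos.mpr h)]
      ring

/-- Maximal ideals of an f-ring with bounded inversion are convex. -/
theorem mem_of_le (F : Facts A) (hbi : ∀ x : A, 1 < x → IsUnit x) (M : Ideal A) [hM : M.IsMaximal]
    {x y : A} (hx : 0 ≤ x) (hxy : x ≤ y) (hy : y ∈ M) : x ∈ M := by
  by_contra hxM
  obtain ⟨r, m, hm, hrm⟩ := hM.exists_inv hxM
  -- `r * x + m = 1`
  have hle : (1 : A) ≤ r ^ 2 * (x * y) + 2 * m - m ^ 2 := by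
    have h1 : 0 ≤ r ^ 2 * (x * (y - x)) := by
      apply F.mul_nonneg _ _ (F.sq_nonneg r)
      apply F.mul_nonneg _ _ hx
      have := F.add_le x y (-x) hxy
      simpa [sub_eq_add_neg] using this
    have h2 := F.add_le _ _ 1 h1
    have h3 : r ^ 2 * (x * (y - x)) + 1 = r ^ 2 * (x * y) + 2 * m - m ^ 2 := by
      have : r * x = 1 - m := by linear_combination hrm
      linear_combination (- (r * x) - 1 + m) * this
    rw [h3, zero_add] at h2
    exact h2
  have hmem : r ^ 2 * (x * y) + 2 * m - m ^ 2 ∈ M := by
    apply M.sub_mem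
    · apply M.add_mem
      · exact M.mul_mem_left _ (M.mul_mem_left _ hy)
      · exact M.mul_mem_left _ hm
    · exact M.pow_mem_of_mem hm 2 (by norm_num)
  rcases hle.lt_or_eq with h | h
  · exact hM.ne_top (M.eq_top_of_isUnit_mem hmem (hbi _ h))
  · rw [← h] at hmem
    exact hM.ne_top ((Ideal.eq_top_iff_one M).mpr hmem)

end Basics

section Gluing

variable {A : Type u} [CommRing A]

theorem eval_sub_mem {n : ℕ} (I : Ideal A) (f : MvPolynomial (Fin n) A) (y y' : Fin n → A)
    (h : ∀ i, y i - y' i ∈ I) : MvPolynomial.eval y f - MvPolynomial.eval y' f ∈ I := by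
  rw [← Ideal.Quotient.eq]
  have h1 : ∀ z : Fin n → A, Ideal.Quotient.mk I (MvPolynomial.eval z f) =
      MvPolynomial.eval₂ (Ideal.Quotient.mk I) (fun i => Ideal.Quotient.mk I (z i)) f := by
    intro z
    rw [MvPolynomial.eval, MvPolynomial.coe_eval₂Hom, MvPolynomial.eval₂_comp_left]
    simp [Function.comp_def]
  rw [h1, h1]
  congr 1
  funext i
  rw [Ideal.Quotient.eq]
  exact h i

/-- The idempotents over which `f` represents a unit. -/
def Good {n : ℕ} (f : MvPolynomial (Fin n) A) (e : A) : Prop :=
  e * e = e ∧ ∃ y : Fin n → A, ∃ r : A, e = MvPolynomial.eval y f * r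

theorem Good.glue {n : ℕ} {f : MvPolynomial (Fin n) A} {e e' : A} (h : Good f e)
    (h' : Good f e') : Good f (e + (1 - e) * e') := by
  obtain ⟨he, y, r, hr⟩ := h
  obtain ⟨he', y', r', hr'⟩ := h'
  refine ⟨by linear_combination (1 - e') * he + (1 - e) ^ 2 * he',
    fun i => e * y i + (1 - e) * y' i, e * r + (1 - e) * e' * r', ?_⟩
  set z : Fin n → A := fun i => e * y i + (1 - e) * y' i with hz
  have h1 : e * (MvPolynomial.eval z f) = e * MvPolynomial.eval y f := by
    have := eval_sub_mem (Ideal.span {1 - e}) f z y (fun i => by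
      rw [Ideal.mem_span_singleton']
      exact ⟨y' i - y i, by rw [hz]; ring⟩)
    rw [Ideal.mem_span_singleton'] at this
    obtain ⟨c, hc⟩ := this
    linear_combination (-e) * hc - c * he
  have h2 : (1 - e) * (MvPolynomial.eval z f) = (1 - e) * MvPolynomial.eval y' f := by
    have := eval_sub_mem (Ideal.span {e}) f z y' (fun i => by
      rw [Ideal.mem_span_singleton']
      exact ⟨y i - y' i, by rw [hz]; ring⟩)
    rw [Ideal.mem_span_singleton'] at this
    obtain ⟨c, hc⟩ := this
    linear_combination (-(1 - e)) * hc - c * he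
  have h3 : MvPolynomial.eval z f * (e * r + (1 - e) * e' * r') =
      e * MvPolynomial.eval y f * r + (1 - e) * MvPolynomial.eval y' f * e' * r' := by
    linear_combination r * h1 + e' * r' * h2
  rw [h3]
  linear_combination (-1 : A) * he - (1 - e) * he' + e * hr + (1 - e) * e' * hr'

/-- Gluing: if every maximal ideal `M` misses a good idempotent (in the strong form
`1 - e ∈ M`), then `f` represents a unit. -/
theorem exists_unit_of_good {n : ℕ} (f : MvPolynomial (Fin n) A)
    (hloc : ∀ M : Ideal A, M.IsMaximal → ∃ e, Good f e ∧ 1 - e ∈ M) :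
    ∃ y : Fin n → A, IsUnit (MvPolynomial.eval y f) := by
  let I : Ideal A :=
    { carrier := {a | ∃ e, (Good f e ∨ e = 0) ∧ a = e * a}
      add_mem' := by
        rintro a b ⟨e, he, hea⟩ ⟨e', he', heb⟩
        rcases he with he | rfl
        · rcases he' with he' | rfl
          · refine ⟨e + (1 - e) * e', Or.inl (he.glue he'), ?_⟩
            have h1 : (1 - e) * a = 0 := by linear_combination hea
            have h2 : (1 - e') * b = 0 := by linear_combination heb
            linear_combination (1 - e') * h1 + (1 - e) * h2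
          · refine ⟨e, Or.inl he, ?_⟩
            rw [zero_mul] at heb
            rw [heb, add_zero]
            exact hea
        · rw [zero_mul] at hea
          rw [hea, zero_add]
          exact ⟨e', he', heb⟩
      zero_mem' := ⟨0, Or.inr rfl, by simp⟩
      smul_mem' := by
        rintro c a ⟨e, he, hea⟩
        refine ⟨e, he, ?_⟩
        simp only [smul_eq_mul]
        linear_combination c * hea }
  have hI : I = ⊤ := by
    by_contra hne
    obtain ⟨M, hM, hIM⟩ := Ideal.exists_le_maximal I hne
    obtain ⟨e, he, he'⟩ := hloc M hM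
    have h1 : e ∈ M := hIM ⟨e, Or.inl he, he.1.symm⟩
    apply hM.ne_top
    rw [Ideal.eq_top_iff_one]
    have := M.add_mem h1 he'
    simpa using this
  have h1 : (1 : A) ∈ I := by rw [hI]; trivial
  obtain ⟨e, he, h1e⟩ := h1
  rw [mul_one] at h1e
  rcases he with he | he
  · obtain ⟨-, y, r, hr⟩ := he
    refine ⟨y, ?_⟩
    rw [← h1e] at hr
    exact IsUnit.of_mul_eq_one r hr.symm
  · have : Subsingleton A := subsingleton_of_zero_eq_one (by rw [h1e, he])
    exact ⟨fun _ => 0, isUnit_of_subsingleton _⟩

/-- A local solution can be moved to the ring itself, modulo the maximal ideal. -/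
theorem exists_eval_notMem {n : ℕ} (f : MvPolynomial (Fin n) A) (M : Ideal A) [M.IsMaximal]
    (x : Fin n → Localization.AtPrime M) (hx : IsUnit (MvPolynomial.aeval x f)) :
    ∃ y : Fin n → A, MvPolynomial.eval y f ∉ M := by
  have hsurj : Function.Surjective (algebraMap A M.ResidueField) :=
    Ideal.algebraMap_residueField_surjective M
  choose y hy using fun i => hsurj (IsLocalRing.residue (Localization.AtPrime M) (x i))
  refine ⟨y, fun hmem => ?_⟩
  have h1 : algebraMap A M.ResidueField (MvPolynomial.eval y f) = 0 := by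
    rw [Ideal.algebraMap_residueField_eq_zero]
    exact hmem
  have h2 : IsUnit (IsLocalRing.residue (Localization.AtPrime M) (MvPolynomial.aeval x f)) :=
    hx.map _
  apply h2.ne_zero
  rw [← h1]
  have h3 : algebraMap A M.ResidueField (MvPolynomial.eval y f) =
      MvPolynomial.eval₂ (algebraMap A M.ResidueField)
        (fun i => algebraMap A M.ResidueField (y i)) f := by
    rw [MvPolynomial.eval, MvPolynomial.coe_eval₂Hom, MvPolynomial.eval₂_comp_left]
    simp [Function.comp_def]
  rw [h3, MvPolynomial.aeval_def, MvPolynomial.eval₂_comp_left]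
  congr 1
  funext i
  simp [hy i]

end Gluing

section Main

variable {A : Type u} [CommRing A] [Lattice A]

theorem quadratic_of_LG (h : LGProperty A) : QuadraticUnitSubstitution A := by
  intro a b _ _ hab
  obtain ⟨y, hy⟩ := h 1 le_rfl
    (MvPolynomial.C a - MvPolynomial.C b * MvPolynomial.X 0 ^ 2) (by
      intro M hM
      by_cases ha : a ∈ M
      · have hb : b ∉ M := by
          intro hb
          obtain ⟨s, t, hst⟩ := hab
          apply hM.ne_top
          rw [Ideal.eq_top_iff_one, ← hst]
          exact M.add_mem (M.mul_mem_left _ ha) (M.mul_mem_left _ hb)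
        refine ⟨fun _ => 1, ?_⟩
        have : MvPolynomial.aeval (fun _ => (1 : Localization.AtPrime M))
            (MvPolynomial.C a - MvPolynomial.C b * MvPolynomial.X (0 : Fin 1) ^ 2) =
            algebraMap A (Localization.AtPrime M) (a - b) := by
          simp
        rw [this]
        refine IsLocalization.map_units (Localization.AtPrime M) (⟨a - b, ?_⟩ : M.primeCompl)
        intro hmem
        apply hb
        have := M.sub_mem ha hmem
        simpa using this
      · refine ⟨fun _ => 0, ?_⟩
        have : MvPolynomial.aeval (fun _ => (0 : Localization.AtPrime M))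
            (MvPolynomial.C a - MvPolynomial.C b * MvPolynomial.X (0 : Fin 1) ^ 2) =
            algebraMap A (Localization.AtPrime M) a := by
          simp
        rw [this]
        exact IsLocalization.map_units (Localization.AtPrime M) (⟨a, ha⟩ : M.primeCompl))
  refine ⟨y 0, ?_⟩
  simpa using hy

/-- The separating idempotent given by condition (b). -/
theorem exists_idempotent (F : Facts A) (hbi : ∀ x : A, 1 < x → IsUnit x)
    (hq : QuadraticUnitSubstitution A) {s m : A} (hsm : IsCoprime s m) :
    ∃ e : A, e * e = e ∧ (∀ M : Ideal A, M.IsMaximal → m ∈ M → 1 - e ∈ M) ∧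
      (∀ M : Ideal A, M.IsMaximal → s ∈ M → e ∈ M) := by
  obtain ⟨v, hv⟩ := hq (s ^ 2) (m ^ 2) (F.sq_nonneg s) (F.sq_nonneg m) (hsm.pow)
  set w : A := s ^ 2 - m ^ 2 * v ^ 2 with hw
  set p : A := w ⊔ 0 with hp
  set q : A := -w ⊔ 0 with hqq
  have hpq : p * q = 0 := F.sup_zero_mul w
  have hpmq : p - q = w := F.sup_zero_sub w
  have hp0 : 0 ≤ p := le_sup_right
  have hq0 : 0 ≤ q := le_sup_right
  have hsq : (p + q) * (p + q) = w * w := by
    linear_combination 4 * hpq + (p - q + w) * hpmq
  have hu : IsUnit (p + q) := by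
    have : IsUnit ((p + q) * (p + q)) := by rw [hsq]; exact hv.mul hv
    exact isUnit_of_mul_isUnit_left this
  obtain ⟨c, hc⟩ := hu.exists_right_inv
  -- `(p + q) * c = 1`
  have hle_add : ∀ x y : A, 0 ≤ y → x ≤ x + y := by
    intro x y hy
    have := F.add_le 0 y x hy
    rwa [zero_add, add_comm] at this
  refine ⟨p * c, ?_, ?_, ?_⟩
  · linear_combination (p * c) * hc - c ^ 2 * hpq
  · intro M hM hmM
    have h1 : 1 - p * c = q * c := by linear_combination (-1 : A) * hc
    rw [h1]
    apply M.mul_mem_right
    rcases hM.isPrime.mem_or_mem (show p * q ∈ M by rw [hpq]; exact M.zero_mem) with h | h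
    · -- then `s ^ 2 + q ∈ M`
      have h2 : s ^ 2 + q ∈ M := by
        have : s ^ 2 + q = p + m * (m * v ^ 2) := by
          linear_combination hw - hpmq
        rw [this]
        exact M.add_mem h (M.mul_mem_right _ hmM)
      have := hM
      refine mem_of_le F hbi M hq0 ?_ h2
      have h3 := hle_add q (s ^ 2) (F.sq_nonneg s)
      rwa [add_comm] at h3
    · exact h
  · intro M hM hsM
    apply M.mul_mem_right
    rcases hM.isPrime.mem_or_mem (show p * q ∈ M by rw [hpq]; exact M.zero_mem) with h | h
    · exact h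
    · have h2 : p + m ^ 2 * v ^ 2 ∈ M := by
        have : p + m ^ 2 * v ^ 2 = q + s * s := by
          linear_combination hpmq - hw
        rw [this]
        exact M.add_mem h (M.mul_mem_right _ hsM)
      have := hM
      refine mem_of_le F hbi M hp0 ?_ h2
      exact hle_add p _ (F.mul_nonneg _ _ (F.sq_nonneg m) (F.sq_nonneg v))

theorem LG_of_quadratic (F : Facts A) (hbi : ∀ x : A, 1 < x → IsUnit x)
    (hq : QuadraticUnitSubstitution A) : LGProperty A := by
  intro n _ f hf
  apply exists_unit_of_good f
  intro M hM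
  obtain ⟨x, hx⟩ := hf M
  obtain ⟨y, hy⟩ := exists_eval_notMem f M x hx
  obtain ⟨r, m, hm, hrm⟩ := hM.exists_inv hy
  have hcop : IsCoprime (MvPolynomial.eval y f) m := ⟨r, 1, by rw [one_mul]; exact hrm⟩
  obtain ⟨e, he, h1, h2⟩ := exists_idempotent F hbi hq hcop
  refine ⟨e, ⟨he, y, ?_⟩, h1 M hM hm⟩
  -- the colon ideal of `e` into `(f y)`
  let J : Ideal A :=
    { carrier := {a | ∃ t, a * e = MvPolynomial.eval y f * t}
      add_mem' := by
        rintro a b ⟨t, ht⟩ ⟨t', ht'⟩
        exact ⟨t + t', by linear_combination ht + ht'⟩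
      zero_mem' := ⟨0, by simp⟩
      smul_mem' := by
        rintro c a ⟨t, ht⟩
        refine ⟨c * t, ?_⟩
        simp only [smul_eq_mul]
        linear_combination c * ht }
  have hJ : J = ⊤ := by
    by_contra hne
    obtain ⟨N, hN, hJN⟩ := Ideal.exists_le_maximal J hne
    have h3 : MvPolynomial.eval y f ∈ N := hJN ⟨e, rfl⟩
    have h4 : e ∈ N := h2 N hN h3
    have h5 : 1 - e ∈ N := hJN ⟨0, by linear_combination (-1 : A) * he⟩
    apply hN.ne_top
    rw [Ideal.eq_top_iff_one]
    have := N.add_mem h4 h5
    simpa using this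
  have h6 : (1 : A) ∈ J := by rw [hJ]; trivial
  obtain ⟨t, ht⟩ := h6
  exact ⟨t, by rw [one_mul] at ht; exact ht⟩

end Main

/-- **Answer to the question.** For every ring `A` in the class `𝒞` of reduced f-rings with
bounded inversion, the local-global property (a) is equivalent to condition (b): for all
relatively prime `a, b ≥ 0` there is `u` with `a - b u ^ 2` a unit. -/
theorem result (A : Type u) [CommRing A] [Lattice A] (hA : InClassC A) :
    LGProperty A ↔ QuadraticUnitSubstitution A :=
  ⟨quadratic_of_LG, LG_of_quadratic (facts_of_isFRing hA.1) hA.2.2⟩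

end Pool.Agent.Results.MP_b9b46b_al.LGIffQuadratic
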